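import Pool.Agent.W734.TWB.Stms

/-!
Project TWB (helper734), part FNL (helper499): a fixed number of particles in the unit box.
-/

set_option autoImplicit false

noncomputable section

namespace Pool.Agent.W499.TWB

open MeasureTheory Set Filter Metric
open Pool.Agent.W734.TWB

/-! ### counting -/

lemma sum_range_choose' (n k : ℕ) : ∑ i ∈ Finset.range n, i.choose k = n.choose (k + 1) := by
  induction n with
  | zero => simp
  | succ n ih => rw [Finset.sum_range_succ, ih, Nat.choose_succ_succ, add_comm]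

lemma sum_rev (n : ℕ) : ∑ i ∈ Finset.range n, (n - 1 - i) = n.choose 2 := by
  rw [← sum_range_choose' n 1]
  simp only [Nat.choose_one_right]
  exact Finset.sum_range_reflect (fun i => i) n

lemma sum_mul_rev (n : ℕ) : ∑ j ∈ Finset.range n, j * (n - 1 - j) = n.choose 3 := by
  induction n with
  | zero => simp
  | succ n ih =>
    rw [Finset.sum_range_succ, Nat.choose_succ_succ, ← ih, ← sum_range_choose' n 1]
    have h1 : n * (n + 1 - 1 - n) = 0 := by simp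
    rw [h1, add_zero, ← Finset.sum_add_distrib]
    refine Finset.sum_congr rfl (fun j hj => ?_)
    rw [Finset.mem_range] at hj
    rw [Nat.choose_one_right]
    obtain ⟨d, hd⟩ : ∃ d, n = j + 1 + d := ⟨n - (j + 1), by omega⟩
    have e1 : n + 1 - 1 - j = d + 1 := by omega
    have e2 : n - 1 - j = d := by omega
    rw [e1, e2]
    ring

lemma card_pairs (n : ℕ) : ∑ i : Fin n, (Finset.Ioi i).card = n.choose 2 := by
  simp only [Fin.card_Ioi]
  rw [Fin.sum_univ_eq_sum_range (fun i => n - 1 - i) n, sum_rev]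

lemma card_trips (n : ℕ) : ∑ i : Fin n, ∑ j ∈ Finset.Ioi i, (Finset.Ioi j).card = n.choose 3 := by
  have h1 : ∑ i : Fin n, ∑ j ∈ Finset.Ioi i, (Finset.Ioi j).card =
      ∑ j : Fin n, ∑ i ∈ Finset.Iio j, (Finset.Ioi j).card := by
    refine Finset.sum_comm' ?_
    intro i j
    simp
  rw [h1]
  simp only [Finset.sum_const, Fin.card_Ioi, Fin.card_Iio, smul_eq_mul]
  rw [Fin.sum_univ_eq_sum_range (fun j => j * (n - 1 - j)) n, sum_mul_rev]

/-! ### positivity of the scattering energies -/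

lemma g3_nonneg (u : E3 → ℂ) (x : E3) : 0 ≤ g3 u x :=
  Finset.sum_nonneg fun _ _ => by positivity

lemma g6_nonneg (φ : E3 × E3 → ℂ) (p : E3 × E3) : 0 ≤ g6 φ p :=
  Finset.sum_nonneg fun _ _ => by positivity

lemma gsq_nonneg {n : ℕ} (F : Cfg n → ℂ) (i : Fin n) (x : Cfg n) : 0 ≤ gsq F i x :=
  Finset.sum_nonneg fun _ _ => by positivity

lemma kin_nonneg {n : ℕ} (F : Cfg n → ℂ) (x : Cfg n) : 0 ≤ kin F x :=
  Finset.sum_nonneg fun _ _ => gsq_nonneg _ _ _

lemma b1_nonneg {W : E3 → ℝ} (hW : AdmW W) : 0 ≤ b1 W := by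
  refine Real.sInf_nonneg ?_
  rintro B ⟨φ, -, -, rfl⟩
  refine integral_nonneg (fun y => ?_)
  have := g3_nonneg φ y
  have h2 := hW.nonneg y
  positivity

lemma b2_nonneg {V : E3 × E3 → ℝ} (hV : AdmV V) : 0 ≤ b2 V := by
  refine Real.sInf_nonneg ?_
  rintro B ⟨φ, -, -, rfl⟩
  refine integral_nonneg (fun y => ?_)
  have := g6_nonneg φ y
  have h2 := hV.nonneg y
  positivity

/-! ### integrability on the unit box -/

lemma box_subset (n : ℕ) : box 0 1 n ⊆ closedBall (0 : Cfg n) 2 := by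
  intro x hx
  rw [mem_closedBall, dist_zero_right, pi_norm_le_iff_of_nonneg (by norm_num)]
  intro i
  rw [EuclideanSpace.norm_eq]
  have h1 : ∀ k : Fin 3, ‖x i k‖ ^ 2 ≤ 1 := by
    intro k
    have h2 := hx i k
    simp only [PiLp.zero_apply, zero_add, mem_Ico] at h2
    rw [Real.norm_eq_abs, sq_abs]
    nlinarith [h2.1, h2.2]
  have h3 : ∑ k : Fin 3, ‖x i k‖ ^ 2 ≤ 2 ^ 2 := by
    calc ∑ k : Fin 3, ‖x i k‖ ^ 2 ≤ ∑ k : Fin 3, (1 : ℝ) := Finset.sum_le_sum fun k _ => h1 k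
      _ ≤ 2 ^ 2 := by simp; norm_num
  calc Real.sqrt (∑ k : Fin 3, ‖x i k‖ ^ 2) ≤ Real.sqrt (2 ^ 2) := Real.sqrt_le_sqrt h3
    _ = 2 := Real.sqrt_sq (by norm_num)

lemma box_meas (n : ℕ) : MeasurableSet (box 0 1 n) := by
  have : box 0 1 n = ⋂ i : Fin n, ⋂ k : Fin 3, {x : Cfg n | x i k ∈ Set.Ico ((0 : E3) k) ((0 : E3) k + 1)} := by
    ext x
    simp [box]
  rw [this]
  refine MeasurableSet.iInter fun i => MeasurableSet.iInter fun k => ?_
  have hc : Continuous (fun x : Cfg n => x i k) :=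
    (PiLp.continuous_apply 2 _ k).comp (continuous_apply i)
  exact hc.measurable measurableSet_Ico

lemma intOn_cont {n : ℕ} {f : Cfg n → ℝ} (hf : Continuous f) : IntegrableOn f (box 0 1 n) :=
  (hf.continuousOn.integrableOn_compact (isCompact_closedBall _ _)).mono_set (box_subset n)

lemma cont_gsq {n : ℕ} {F : Cfg n → ℂ} (hF : ContDiff ℝ 1 F) (i : Fin n) :
    Continuous (gsq F i) := by
  unfold gsq
  refine continuous_finsetSum _ fun k _ => ?_
  have h1 : Continuous (fun x => fderiv ℝ F x) := hF.continuous_fderiv one_ne_zero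
  exact ((h1.clm_apply continuous_const).norm).pow 2

lemma cont_kin {n : ℕ} {F : Cfg n → ℂ} (hF : ContDiff ℝ 1 F) : Continuous (kin F) := by
  unfold kin
  exact continuous_finsetSum _ fun i _ => cont_gsq hF i

lemma intOn_pot {n : ℕ} {F : Cfg n → ℂ} (hF : Continuous F) {w : Cfg n → ℝ} (hw : Measurable w)
    (hw0 : ∀ x, 0 ≤ w x) (hb : ∃ M : ℝ, ∀ x, w x ≤ M) :
    IntegrableOn (fun x => w x * ‖F x‖ ^ 2) (box 0 1 n) := by
  obtain ⟨M, hM⟩ := hb
  have h1 : IntegrableOn (fun x => M * ‖F x‖ ^ 2) (box 0 1 n) :=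
    intOn_cont (continuous_const.mul (hF.norm.pow 2))
  refine Integrable.mono' h1 ?_ (Eventually.of_forall fun x => ?_)
  · exact (hw.mul (hF.norm.pow 2).measurable).aestronglyMeasurable
  · rw [Real.norm_eq_abs, abs_of_nonneg (mul_nonneg (hw0 x) (by positivity))]
    exact mul_le_mul_of_nonneg_right (hM x) (by positivity)

/-- the scaled potentials are measurable, nonnegative and bounded -/
lemma meas_w {W : E3 → ℝ} (hW : AdmW W) (s : ℝ) :
    Measurable (fun z : E3 => s ^ 2 * W (s • z)) :=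
  (hW.meas.comp (continuous_const_smul s).measurable).const_mul _

lemma meas_v {V : E3 × E3 → ℝ} (hV : AdmV V) (r : ℝ) :
    Measurable (fun p : E3 × E3 => r ^ 2 * V (r • p)) :=
  (hV.meas.comp (continuous_const_smul r).measurable).const_mul _

lemma bdd_w {W : E3 → ℝ} (hW : AdmW W) (s : ℝ) : ∃ M : ℝ, ∀ z : E3, s ^ 2 * W (s • z) ≤ M := by
  obtain ⟨M, hM⟩ := hW.bdd
  exact ⟨s ^ 2 * M, fun z => mul_le_mul_of_nonneg_left (hM _) (sq_nonneg _)⟩

lemma bdd_v {V : E3 × E3 → ℝ} (hV : AdmV V) (r : ℝ) :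
    ∃ M : ℝ, ∀ p : E3 × E3, r ^ 2 * V (r • p) ≤ M := by
  obtain ⟨M, hM⟩ := hV.bdd
  exact ⟨r ^ 2 * M, fun z => mul_le_mul_of_nonneg_left (hM _) (sq_nonneg _)⟩

/-- the pointwise inequality -/
lemma pointwise (hR : S_REGS) {n : ℕ} {τ ρ ρ' : ℝ} (hτ : 0 < τ) (hρ : ρ ≤ τ / 4)
    (hρ' : ρ' ≤ τ / 4) (F : Cfg n → ℂ) (w : E3 → ℝ) (v : E3 × E3 → ℝ) (hw : ∀ z, 0 ≤ w z)
    (hv : ∀ p, 0 ≤ v p) (x : Cfg n) :
    (∑ i : Fin n, ∑ j ∈ Finset.Ioi i, (pairReg τ ρ i j).indicator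
        (fun x => gsq F i x + gsq F j x + w (x i - x j) * ‖F x‖ ^ 2) x)
    + (∑ i : Fin n, ∑ j ∈ Finset.Ioi i, ∑ k ∈ Finset.Ioi j, (tripReg τ ρ' i j k).indicator
        (fun x => gsq F i x + gsq F j x + gsq F k x + v (x i - x j, x i - x k) * ‖F x‖ ^ 2) x)
      ≤ kin F x + (pairS w x + tripS v x) * ‖F x‖ ^ 2 := by
  have h0 := (hR n τ ρ ρ' hτ hρ hρ').2.2.2.2.2 (fun i => gsq F i x) (fun i => gsq_nonneg _ _ _) x
  have h1 : ∀ i j : Fin n, (pairReg τ ρ i j).indicator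
      (fun x => gsq F i x + gsq F j x + w (x i - x j) * ‖F x‖ ^ 2) x ≤
      (pairReg τ ρ i j).indicator (fun _ => gsq F i x + gsq F j x) x
        + w (x i - x j) * ‖F x‖ ^ 2 := by
    intro i j
    have h2 : 0 ≤ w (x i - x j) * ‖F x‖ ^ 2 := mul_nonneg (hw _) (by positivity)
    by_cases hx : x ∈ pairReg τ ρ i j
    · rw [indicator_of_mem hx, indicator_of_mem hx]
    · rw [indicator_of_notMem hx, indicator_of_notMem hx, zero_add]
      exact h2
  have h3 : ∀ i j k : Fin n, (tripReg τ ρ' i j k).indicator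
      (fun x => gsq F i x + gsq F j x + gsq F k x + v (x i - x j, x i - x k) * ‖F x‖ ^ 2) x ≤
      (tripReg τ ρ' i j k).indicator (fun _ => gsq F i x + gsq F j x + gsq F k x) x
        + v (x i - x j, x i - x k) * ‖F x‖ ^ 2 := by
    intro i j k
    have h2 : 0 ≤ v (x i - x j, x i - x k) * ‖F x‖ ^ 2 := mul_nonneg (hv _) (by positivity)
    by_cases hx : x ∈ tripReg τ ρ' i j k
    · rw [indicator_of_mem hx, indicator_of_mem hx]
    · rw [indicator_of_notMem hx, indicator_of_notMem hx, zero_add]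
      exact h2
  have h4 : (∑ i : Fin n, ∑ j ∈ Finset.Ioi i, (pairReg τ ρ i j).indicator
        (fun x => gsq F i x + gsq F j x + w (x i - x j) * ‖F x‖ ^ 2) x) ≤
      (∑ i : Fin n, ∑ j ∈ Finset.Ioi i,
        (pairReg τ ρ i j).indicator (fun _ => gsq F i x + gsq F j x) x)
      + pairS w x * ‖F x‖ ^ 2 := by
    unfold pairS
    rw [Finset.sum_mul, ← Finset.sum_add_distrib]
    refine Finset.sum_le_sum fun i _ => ?_
    rw [Finset.sum_mul, ← Finset.sum_add_distrib]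
    exact Finset.sum_le_sum fun j _ => h1 i j
  have h5 : (∑ i : Fin n, ∑ j ∈ Finset.Ioi i, ∑ k ∈ Finset.Ioi j, (tripReg τ ρ' i j k).indicator
        (fun x => gsq F i x + gsq F j x + gsq F k x + v (x i - x j, x i - x k) * ‖F x‖ ^ 2) x) ≤
      (∑ i : Fin n, ∑ j ∈ Finset.Ioi i, ∑ k ∈ Finset.Ioi j,
        (tripReg τ ρ' i j k).indicator (fun _ => gsq F i x + gsq F j x + gsq F k x) x)
      + tripS v x * ‖F x‖ ^ 2 := by
    unfold tripS
    rw [Finset.sum_mul, ← Finset.sum_add_distrib]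
    refine Finset.sum_le_sum fun i _ => ?_
    rw [Finset.sum_mul, ← Finset.sum_add_distrib]
    refine Finset.sum_le_sum fun j _ => ?_
    rw [Finset.sum_mul, ← Finset.sum_add_distrib]
    exact Finset.sum_le_sum fun k _ => h3 i j k
  have h6 : kin F x = ∑ i : Fin n, gsq F i x := rfl
  rw [add_mul, h6]
  linarith

/-- the integrated inequality -/
lemma integrated (hR : S_REGS) {n : ℕ} {τ ρ ρ' : ℝ} (hτ : 0 < τ) (hρ : ρ ≤ τ / 4)
    (hρ' : ρ' ≤ τ / 4) {F : Cfg n → ℂ} (hF : ContDiff ℝ 1 F) {w : E3 → ℝ} {v : E3 × E3 → ℝ}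
    (hw : ∀ z, 0 ≤ w z) (hv : ∀ p, 0 ≤ v p) (mw : Measurable w) (mv : Measurable v)
    (bw : ∃ M : ℝ, ∀ z, w z ≤ M) (bv : ∃ M : ℝ, ∀ p, v p ≤ M) :
    (∑ i : Fin n, ∑ j ∈ Finset.Ioi i, ∫ x in pairReg τ ρ i j,
        (gsq F i x + gsq F j x + w (x i - x j) * ‖F x‖ ^ 2))
    + (∑ i : Fin n, ∑ j ∈ Finset.Ioi i, ∑ k ∈ Finset.Ioi j, ∫ x in tripReg τ ρ' i j k,
        (gsq F i x + gsq F j x + gsq F k x + v (x i - x j, x i - x k) * ‖F x‖ ^ 2))
      ≤ (∫ x in box 0 1 n, kin F x)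
        + ∫ x in box 0 1 n, (pairS w x + tripS v x) * ‖F x‖ ^ 2 := by
  obtain ⟨mP, mT, mN, sP, sT, -⟩ := hR n τ ρ ρ' hτ hρ hρ'
  obtain ⟨Mw, hMw⟩ := bw
  obtain ⟨Mv, hMv⟩ := bv
  -- integrability
  have iw : ∀ i j : Fin n, IntegrableOn (fun x : Cfg n => w (x i - x j) * ‖F x‖ ^ 2)
      (box 0 1 n) := by
    intro i j
    refine intOn_pot hF.continuous (w := fun x => w (x i - x j)) ?_ (fun x => hw _)
      ⟨Mw, fun x => hMw _⟩
    exact mw.comp ((continuous_apply i).sub (continuous_apply j)).measurable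
  have iv : ∀ i j k : Fin n, IntegrableOn
      (fun x : Cfg n => v (x i - x j, x i - x k) * ‖F x‖ ^ 2) (box 0 1 n) := by
    intro i j k
    refine intOn_pot hF.continuous (w := fun x => v (x i - x j, x i - x k)) ?_ (fun x => hv _)
      ⟨Mv, fun x => hMv _⟩
    exact mv.comp (((continuous_apply i).sub (continuous_apply j)).prodMk
      ((continuous_apply i).sub (continuous_apply k))).measurable
  have ig : ∀ i : Fin n, IntegrableOn (gsq F i) (box 0 1 n) := fun i => intOn_cont (cont_gsq hF i)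
  have ik : IntegrableOn (kin F) (box 0 1 n) := intOn_cont (cont_kin hF)
  have iP : ∀ i j : Fin n, IntegrableOn
      (fun x : Cfg n => gsq F i x + gsq F j x + w (x i - x j) * ‖F x‖ ^ 2) (box 0 1 n) :=
    fun i j => ((ig i).add (ig j)).add (iw i j)
  have iT : ∀ i j k : Fin n, IntegrableOn
      (fun x : Cfg n => gsq F i x + gsq F j x + gsq F k x
        + v (x i - x j, x i - x k) * ‖F x‖ ^ 2) (box 0 1 n) :=
    fun i j k => (((ig i).add (ig j)).add (ig k)).add (iv i j k)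
  have ipot : IntegrableOn (fun x : Cfg n => (pairS w x + tripS v x) * ‖F x‖ ^ 2)
      (box 0 1 n) := by
    have h1 : (fun x : Cfg n => (pairS w x + tripS v x) * ‖F x‖ ^ 2) = fun x =>
        (∑ i : Fin n, ∑ j ∈ Finset.Ioi i, w (x i - x j) * ‖F x‖ ^ 2)
        + ∑ i : Fin n, ∑ j ∈ Finset.Ioi i, ∑ k ∈ Finset.Ioi j,
            v (x i - x j, x i - x k) * ‖F x‖ ^ 2 := by
      funext x
      unfold pairS tripS
      simp only [add_mul, Finset.sum_mul]
    rw [h1]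
    refine Integrable.add ?_ ?_
    · exact integrable_finsetSum _ fun i _ => integrable_finsetSum _ fun j _ => iw i j
    · exact integrable_finsetSum _ fun i _ => integrable_finsetSum _ fun j _ =>
        integrable_finsetSum _ fun k _ => iv i j k
  -- indicators
  have eP : ∀ i j : Fin n, i ≠ j → ∫ x in pairReg τ ρ i j,
      (gsq F i x + gsq F j x + w (x i - x j) * ‖F x‖ ^ 2) =
      ∫ x in box 0 1 n, (pairReg τ ρ i j).indicator
        (fun x => gsq F i x + gsq F j x + w (x i - x j) * ‖F x‖ ^ 2) x := by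
    intro i j hij
    rw [setIntegral_indicator (mP i j)]
    have h1 : box 0 1 n ∩ pairReg τ ρ i j = pairReg τ ρ i j := by
      refine inter_eq_right.2 fun x hx => ?_
      exact (sP i j hij hx).1
    rw [h1]
  have eT : ∀ i j k : Fin n, i ≠ j → i ≠ k → j ≠ k → ∫ x in tripReg τ ρ' i j k,
      (gsq F i x + gsq F j x + gsq F k x + v (x i - x j, x i - x k) * ‖F x‖ ^ 2) =
      ∫ x in box 0 1 n, (tripReg τ ρ' i j k).indicator
        (fun x => gsq F i x + gsq F j x + gsq F k x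
          + v (x i - x j, x i - x k) * ‖F x‖ ^ 2) x := by
    intro i j k hij hik hjk
    rw [setIntegral_indicator (mT i j k)]
    have h1 : box 0 1 n ∩ tripReg τ ρ' i j k = tripReg τ ρ' i j k := by
      refine inter_eq_right.2 fun x hx => ?_
      exact (sT i j k hij hik hjk hx).1
    rw [h1]
  have lP : (∑ i : Fin n, ∑ j ∈ Finset.Ioi i, ∫ x in pairReg τ ρ i j,
        (gsq F i x + gsq F j x + w (x i - x j) * ‖F x‖ ^ 2)) =
      ∫ x in box 0 1 n, ∑ i : Fin n, ∑ j ∈ Finset.Ioi i, (pairReg τ ρ i j).indicator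
        (fun x => gsq F i x + gsq F j x + w (x i - x j) * ‖F x‖ ^ 2) x := by
    rw [integral_finsetSum _ fun i _ => integrable_finsetSum _ fun j _ =>
      (iP i j).indicator (mP i j)]
    refine Finset.sum_congr rfl fun i _ => ?_
    rw [integral_finsetSum _ fun j _ => (iP i j).indicator (mP i j)]
    refine Finset.sum_congr rfl fun j hj => ?_
    exact eP i j (Finset.mem_Ioi.1 hj).ne
  have lT : (∑ i : Fin n, ∑ j ∈ Finset.Ioi i, ∑ k ∈ Finset.Ioi j, ∫ x in tripReg τ ρ' i j k,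
        (gsq F i x + gsq F j x + gsq F k x + v (x i - x j, x i - x k) * ‖F x‖ ^ 2)) =
      ∫ x in box 0 1 n, ∑ i : Fin n, ∑ j ∈ Finset.Ioi i, ∑ k ∈ Finset.Ioi j,
        (tripReg τ ρ' i j k).indicator
        (fun x => gsq F i x + gsq F j x + gsq F k x
          + v (x i - x j, x i - x k) * ‖F x‖ ^ 2) x := by
    rw [integral_finsetSum _ fun i _ => integrable_finsetSum _ fun j _ =>
      integrable_finsetSum _ fun k _ => (iT i j k).indicator (mT i j k)]
    refine Finset.sum_congr rfl fun i _ => ?_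
    rw [integral_finsetSum _ fun j _ => integrable_finsetSum _ fun k _ =>
      (iT i j k).indicator (mT i j k)]
    refine Finset.sum_congr rfl fun j hj => ?_
    rw [integral_finsetSum _ fun k _ => (iT i j k).indicator (mT i j k)]
    refine Finset.sum_congr rfl fun k hk => ?_
    have hij := Finset.mem_Ioi.1 hj
    have hjk := Finset.mem_Ioi.1 hk
    exact eT i j k hij.ne (hij.trans hjk).ne hjk.ne
  have iP' : IntegrableOn (fun x : Cfg n => ∑ i : Fin n, ∑ j ∈ Finset.Ioi i,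
      (pairReg τ ρ i j).indicator
        (fun x => gsq F i x + gsq F j x + w (x i - x j) * ‖F x‖ ^ 2) x) (box 0 1 n) :=
    integrable_finsetSum _ fun i _ => integrable_finsetSum _ fun j _ =>
      (iP i j).indicator (mP i j)
  have iT' : IntegrableOn (fun x : Cfg n => ∑ i : Fin n, ∑ j ∈ Finset.Ioi i,
      ∑ k ∈ Finset.Ioi j, (tripReg τ ρ' i j k).indicator
        (fun x => gsq F i x + gsq F j x + gsq F k x
          + v (x i - x j, x i - x k) * ‖F x‖ ^ 2) x) (box 0 1 n) :=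
    integrable_finsetSum _ fun i _ => integrable_finsetSum _ fun j _ =>
      integrable_finsetSum _ fun k _ => (iT i j k).indicator (mT i j k)
  rw [lP, lT, ← integral_add iP' iT', ← integral_add ik ipot]
  refine setIntegral_mono (iP'.add iT') (ik.add ipot) ?_
  intro x
  exact pointwise hR hτ hρ hρ' F w v hw hv x

lemma fin_arith {L1 L2 U1 U2 er Y Z a b : ℝ} (h1 : L1 ≤ U1) (h2 : U1 - U2 ≤ Y) (h3 : U2 ≤ er)
    (h4 : er ≤ a + b) (h5 : 2 * b ≤ a) (h6 : L2 ≤ b) (h7 : Y + 2 * a ≤ Z) : L1 + L2 ≤ Z := by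
  linarith

lemma alg {η θ δ CP CH NN K D P B c2 : ℝ} (hθ : θ = η / 3) (η0 : 0 < η) (η1 : η < 1)
    (δ0 : 0 < δ) (δθ : δ ≤ θ) (CP0 : 0 < CP) (CH0 : 0 ≤ CH) (NN0 : 0 ≤ NN)
    (e1 : δ * (NN * CH) ≤ θ / 2) (e2 : δ * (NN * CH) ≤ θ / (4 * CP)) (K0 : 0 ≤ K) (D0 : 0 ≤ D)
    (P0 : 0 ≤ P) (B0 : 0 ≤ B) (hc2 : 0 ≤ c2) (hBs : B ≤ θ / (4 * CP)) (hp1 : D ≤ CP * K)
    (hKP : (1 - δ) * (1 - θ) * B * c2 - δ * (NN * CH) * (K + D) ≤ K + P) :
    (1 - η) * B * (c2 + D) ≤ K + P := by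
  have θ0 : 0 < θ := by rw [hθ]; linarith
  have hBc : 0 ≤ B * c2 := mul_nonneg B0 hc2
  have er1 : δ * (NN * CH) * (K + D) ≤ θ / 2 * K + θ / (4 * CP) * D := by
    have e3 := mul_le_mul_of_nonneg_right e1 K0
    have e4 := mul_le_mul_of_nonneg_right e2 D0
    rw [mul_add]
    linarith
  have er0 : 0 ≤ δ * (NN * CH) * (K + D) := by positivity
  have hprod : (1 - η) ≤ (1 - θ) * ((1 - δ) * (1 - θ)) := by
    have e1 : 0 ≤ 1 - θ := by rw [hθ]; linarith
    have e2 : (1 - θ) * (1 - θ) ≤ (1 - δ) * (1 - θ) :=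
      mul_le_mul_of_nonneg_right (by linarith) e1
    have e3 : (1 - θ) * ((1 - θ) * (1 - θ)) ≤ (1 - θ) * ((1 - δ) * (1 - θ)) :=
      mul_le_mul_of_nonneg_left e2 e1
    have e4 : η = 3 * θ := by rw [hθ]; ring
    have e5 : 0 ≤ θ * θ * (3 - θ) := mul_nonneg (mul_nonneg θ0.le θ0.le) (by linarith)
    have e6 : (1 - θ) * ((1 - θ) * (1 - θ)) = 1 - 3 * θ + θ * θ * (3 - θ) := by ring
    rw [e4]
    linarith
  have st1 : (1 - η) * (B * c2) ≤ (1 - θ) * ((1 - δ) * (1 - θ) * B * c2) := by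
    have := mul_le_mul_of_nonneg_right hprod hBc
    calc (1 - η) * (B * c2) ≤ (1 - θ) * ((1 - δ) * (1 - θ)) * (B * c2) := this
      _ = (1 - θ) * ((1 - δ) * (1 - θ) * B * c2) := by ring
  have st2 : (1 - θ) * ((1 - δ) * (1 - θ) * B * c2 - δ * (NN * CH) * (K + D)) ≤
      (1 - θ) * (K + P) := mul_le_mul_of_nonneg_left hKP (by rw [hθ]; linarith)
  have st3 : (1 - θ) * (δ * (NN * CH) * (K + D)) ≤ δ * (NN * CH) * (K + D) := by
    have e5 : 0 ≤ θ * (δ * (NN * CH) * (K + D)) := mul_nonneg θ0.le er0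
    have e6 : (1 - θ) * (δ * (NN * CH) * (K + D)) =
      δ * (NN * CH) * (K + D) - θ * (δ * (NN * CH) * (K + D)) := by ring
    linarith
  have st4 : D / CP ≤ K := by rw [div_le_iff₀ CP0]; linarith
  have st5 : θ / 2 * (D / CP) ≤ θ / 2 * K := mul_le_mul_of_nonneg_left st4 (by positivity)
  have st6 : θ / 2 * (D / CP) = 2 * (θ / (4 * CP) * D) := by
    field_simp
    ring
  have st7 : (1 - η) * (B * D) ≤ θ / (4 * CP) * D := by
    have e1 : B * D ≤ θ / (4 * CP) * D := mul_le_mul_of_nonneg_right hBs D0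
    have e2 : (1 - η) * (B * D) ≤ 1 * (B * D) :=
      mul_le_mul_of_nonneg_right (by linarith) (mul_nonneg B0 D0)
    linarith
  have st8 : (1 - θ) * (K + P) + 2 * (θ / 2 * K) ≤ K + P := by
    have e1 : (K + P) - ((1 - θ) * (K + P) + 2 * (θ / 2 * K)) = θ * P := by ring
    have e2 : 0 ≤ θ * P := mul_nonneg θ0.le P0
    rw [← e1] at e2
    exact sub_nonneg.1 e2
  have st9 : (1 - θ) * ((1 - δ) * (1 - θ) * B * c2) -
      (1 - θ) * (δ * (NN * CH) * (K + D)) ≤ (1 - θ) * (K + P) := by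
    rw [← mul_sub]; exact st2
  have st10 : 2 * (θ / (4 * CP) * D) ≤ θ / 2 * K := by rw [← st6]; exact st5
  have st11 : (1 - η) * B * (c2 + D) = (1 - η) * (B * c2) + (1 - η) * (B * D) := by
    ring
  rw [st11]
  exact fin_arith st1 st9 st3 er1 st10 st7 st8

/-- smallness of the interaction -/
lemma small_B {n2 n3 x1 x2 s r s0 θ CP q : ℝ} (h2 : 0 ≤ n2) (h3 : 0 ≤ n3) (h1' : 0 ≤ x1)
    (h2' : 0 ≤ x2) (hs0 : 1 ≤ s0) (hs : s0 ≤ s) (hr : s0 ≤ r) (θ0 : 0 < θ) (CP0 : 0 < CP)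
    (hq : 0 ≤ q) (hs0' : s0 = q + (n2 * x1 + n3 * x2) * (4 * CP) / θ) :
    n2 * x1 / s + n3 * x2 / r ^ 4 ≤ θ / (4 * CP) := by
  have e1 : n2 * x1 / s ≤ n2 * x1 / s0 :=
    div_le_div_of_nonneg_left (by positivity) (by linarith) hs
  have e2 : n3 * x2 / r ^ 4 ≤ n3 * x2 / s0 := by
    refine div_le_div_of_nonneg_left (by positivity) (by linarith) ?_
    have : r ≤ r ^ 4 := by
      calc r = r ^ 1 := (pow_one r).symm
        _ ≤ r ^ 4 := pow_le_pow_right₀ (by linarith) (by norm_num)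
    linarith
  have e3 : n2 * x1 / s + n3 * x2 / r ^ 4 ≤ (n2 * x1 + n3 * x2) / s0 := by
    rw [add_div]
    linarith
  refine e3.trans ?_
  rw [div_le_div_iff₀ (by linarith) (by positivity)]
  have e4 : (n2 * x1 + n3 * x2) * (4 * CP) / θ ≤ s0 := by
    rw [hs0']
    linarith
  rw [div_le_iff₀ θ0] at e4
  linarith

lemma rad_small {R τ s : ℝ} (τ0 : 0 < τ) (sp : 0 < s) (h1 : 4 * R / τ ≤ s) :
    R / s ≤ τ / 4 := by
  rw [div_le_div_iff₀ sp (by norm_num)]
  rw [div_le_iff₀ τ0] at h1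
  linarith

lemma comb {X A VV θ' J H H' δ : ℝ} (h1 : X * VV ≤ J + δ * H) (h2 : 1 - θ' ≤ VV) (hX : 0 ≤ X)
    (h5 : H ≤ H') (δ0 : 0 ≤ δ) (hA : A = H') : X * (1 - θ') - δ * A ≤ J := by
  have h2' : X * (1 - θ') ≤ X * VV := mul_le_mul_of_nonneg_left h2 hX
  have h6 := mul_le_mul_of_nonneg_left h5 δ0
  rw [hA]
  linarith

/-- FNL -/
theorem fnl : S_DY → S_DY3 → S_PAIR → S_TRIP → S_REGS → S_VOL → S_H2 → S_POIN → S_FNL := by
  intro hDY hDY3 hPAIR hTRIP hREGS hVOL hH2 hPOIN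
  intro W V hW hV n η hη
  have hb1 := b1_nonneg hW
  have hb2 := b2_nonneg hV
  by_cases hη1 : 1 ≤ η
  · -- trivial case
    refine ⟨1, one_pos, ?_⟩
    intro s r hs hr F hF
    have hs0 : 0 < s := by linarith
    have hr0 : 0 < r := by linarith
    have h1 : 0 ≤ ((n.choose 2 : ℝ) * b1 W / s + (n.choose 3 : ℝ) * b2 V / r ^ 4)
        * (∫ x in box 0 1 n, ‖F x‖ ^ 2) := by
      have : 0 ≤ ∫ x in box 0 1 n, ‖F x‖ ^ 2 := integral_nonneg fun x => by positivity
      positivity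
    have h2 : 0 ≤ ∫ x in box 0 1 n, (kin F x + (pairS (fun z => s ^ 2 * W (s • z)) x
        + tripS (fun p => r ^ 2 * V (r • p)) x) * ‖F x‖ ^ 2) := by
      refine integral_nonneg fun x => ?_
      have k1 : 0 ≤ pairS (fun z => s ^ 2 * W (s • z)) x :=
        Finset.sum_nonneg fun i _ => Finset.sum_nonneg fun j _ =>
          mul_nonneg (sq_nonneg _) (hW.nonneg _)
      have k2 : 0 ≤ tripS (fun p => r ^ 2 * V (r • p)) x :=
        Finset.sum_nonneg fun i _ => Finset.sum_nonneg fun j _ => Finset.sum_nonneg fun k _ =>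
          mul_nonneg (sq_nonneg _) (hV.nonneg _)
      have k3 := kin_nonneg F x
      positivity
    nlinarith
  push Not at hη1
  set θ : ℝ := η / 3 with hθ
  have θ0 : 0 < θ := by rw [hθ]; linarith
  obtain ⟨τ, τ0, -, hvP, hvT⟩ := hVOL n θ θ0
  obtain ⟨CP, CP0, hCP⟩ := hPOIN n
  obtain ⟨CH, CH0, hCH⟩ := hH2 n τ τ0
  set NN : ℝ := (n.choose 2 : ℝ) + (n.choose 3 : ℝ) with hNN
  have NN0 : 0 ≤ NN := by positivity
  set m0 : ℝ := min (θ / 2) (θ / (4 * CP)) with hm0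
  have m00 : 0 < m0 := lt_min (by positivity) (by positivity)
  set δ : ℝ := min θ (m0 / (NN * CH + 1)) with hδ
  have δ0 : 0 < δ := lt_min θ0 (by positivity)
  have δθ : δ ≤ θ := min_le_left _ _
  have δ1 : δ < 1 := by linarith
  have δm : δ * (NN * CH) ≤ m0 := by
    have h1 : δ ≤ m0 / (NN * CH + 1) := min_le_right _ _
    have h2 : 0 ≤ NN * CH := by positivity
    calc δ * (NN * CH) ≤ (m0 / (NN * CH + 1)) * (NN * CH) := mul_le_mul_of_nonneg_right h1 h2
      _ ≤ (m0 / (NN * CH + 1)) * (NN * CH + 1) := by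
          refine mul_le_mul_of_nonneg_left (by linarith) (by positivity)
      _ = m0 := by field_simp
  obtain ⟨R1, R10, hR1⟩ := hDY W hW δ δ0 δ1
  obtain ⟨R2, R20, hR2⟩ := hDY3 V hV δ δ0 δ1
  set BB : ℝ := (n.choose 2 : ℝ) * b1 W + (n.choose 3 : ℝ) * b2 V with hBB
  have BB0 : 0 ≤ BB := by positivity
  set s0 : ℝ := 1 + 4 * R1 / τ + 4 * R2 / τ + BB * (4 * CP) / θ with hs0
  have s01 : 1 ≤ s0 := by
    rw [hs0]
    have h1 : 0 ≤ 4 * R1 / τ := by positivity
    have h2 : 0 ≤ 4 * R2 / τ := by positivity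
    have h3 : 0 ≤ BB * (4 * CP) / θ := by positivity
    linarith
  refine ⟨s0, by linarith, ?_⟩
  intro s r hs hr F hF
  have s1 : 1 ≤ s := s01.trans hs
  have r1 : 1 ≤ r := s01.trans hr
  have sp : 0 < s := by linarith
  have rp : 0 < r := by linarith
  have q1 : 0 ≤ 4 * R1 / τ := by positivity
  have q2 : 0 ≤ 4 * R2 / τ := by positivity
  have q3 : 0 ≤ BB * (4 * CP) / θ := by positivity
  have hρ1 : R1 / s ≤ τ / 4 := rad_small τ0 sp (le_trans (by rw [hs0]; linarith) hs)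
  have hρ2 : R2 / r ≤ τ / 4 := rad_small τ0 rp (le_trans (by rw [hs0]; linarith) hr)
  set w : E3 → ℝ := fun z => s ^ 2 * W (s • z) with hw
  set v : E3 × E3 → ℝ := fun p => r ^ 2 * V (r • p) with hv
  have hw0 : ∀ z, 0 ≤ w z := fun z => mul_nonneg (sq_nonneg _) (hW.nonneg _)
  have hv0 : ∀ p, 0 ≤ v p := fun p => mul_nonneg (sq_nonneg _) (hV.nonneg _)
  have mw : Measurable w := meas_w hW s
  have mv : Measurable v := meas_v hV r
  set c : ℂ := ∫ y in box 0 1 n, F y with hc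
  set D : ℝ := ∫ x in box 0 1 n, ‖F x - c‖ ^ 2 with hD
  set K : ℝ := ∫ x in box 0 1 n, kin F x with hK
  obtain ⟨hp1, hp2⟩ := hCP F hF
  rw [← hc, ← hD, ← hK] at hp1
  rw [← hc, ← hD] at hp2
  have D0 : 0 ≤ D := integral_nonneg fun x => by positivity
  have K0 : 0 ≤ K := integral_nonneg fun x => kin_nonneg F x
  have A1 : 0 ≤ (1 - δ) * (b1 W / s) := mul_nonneg (by linarith) (by positivity)
  have A2 : 0 ≤ (1 - δ) * (b2 V / r ^ 4) := mul_nonneg (by linarith) (by positivity)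
  obtain ⟨mP, mT, mN, sP, sT, -⟩ := hREGS n τ (R1 / s) (R2 / r) τ0 hρ1 hρ2
  -- pairs
  have tP : ∀ i j : Fin n, i ≠ j →
      (1 - δ) * (b1 W / s) * ‖c‖ ^ 2 * (1 - θ) - δ * (CH * (K + D)) ≤
      ∫ x in pairReg τ (R1 / s) i j, (gsq F i x + gsq F j x + w (x i - x j) * ‖F x‖ ^ 2) := by
    intro i j hij
    have h1 := hPAIR w mw hw0 (bdd_w hW s) ((1 - δ) * (b1 W / s)) δ (R1 / s) A1 δ0.le
      (by positivity) (fun u hu c => hR1 s sp u hu c) n τ τ0 hρ1 i j hij F hF c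
    obtain ⟨h3, h4⟩ := hCH i j hij F hF c
    rw [← hK, ← hD] at h4
    have h5 : ∫ x in pairReg τ (R1 / s) i j, ‖F x - c‖ ^ 2 / ‖x i - x j‖ ^ 2 ≤
        ∫ x in nearD τ i j, ‖F x - c‖ ^ 2 / ‖x i - x j‖ ^ 2 :=
      setIntegral_mono_set h3 (Eventually.of_forall fun x => by positivity)
        (Eventually.of_forall fun x hx => sP i j hij hx)
    exact comb h1 (hvP i j hij) (mul_nonneg A1 (by positivity)) (h5.trans h4) δ0.le rfl
  -- triples
  have tT : ∀ i j k : Fin n, i ≠ j → i ≠ k → j ≠ k →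
      (1 - δ) * (b2 V / r ^ 4) * ‖c‖ ^ 2 * (1 - θ) - δ * (CH * (K + D)) ≤
      ∫ x in tripReg τ (R2 / r) i j k, (gsq F i x + gsq F j x + gsq F k x
        + v (x i - x j, x i - x k) * ‖F x‖ ^ 2) := by
    intro i j k hij hik hjk
    have h1 := hTRIP v mv hv0 (bdd_v hV r) ((1 - δ) * (b2 V / r ^ 4)) δ (R2 / r) A2 δ0.le
      (by positivity) (fun G hG c => hR2 r rp G hG c) n τ τ0 hρ2 i j k hij hik hjk F hF c
    obtain ⟨h3, h4⟩ := hCH i j hij F hF c
    rw [← hK, ← hD] at h4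
    have h5 : ∫ x in tripReg τ (R2 / r) i j k, ‖F x - c‖ ^ 2 / ‖x i - x j‖ ^ 2 ≤
        ∫ x in nearD τ i j, ‖F x - c‖ ^ 2 / ‖x i - x j‖ ^ 2 :=
      setIntegral_mono_set h3 (Eventually.of_forall fun x => by positivity)
        (Eventually.of_forall fun x hx => sT i j k hij hik hjk hx)
    exact comb h1 (hvT i j k hij hik hjk) (mul_nonneg A2 (by positivity)) (h5.trans h4) δ0.le
      rfl
  set X1 : ℝ := (1 - δ) * (b1 W / s) * ‖c‖ ^ 2 * (1 - θ) - δ * (CH * (K + D)) with hX1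
  set X2 : ℝ := (1 - δ) * (b2 V / r ^ 4) * ‖c‖ ^ 2 * (1 - θ) - δ * (CH * (K + D)) with hX2
  have sumP : (n.choose 2 : ℝ) * X1 ≤ ∑ i : Fin n, ∑ j ∈ Finset.Ioi i,
      ∫ x in pairReg τ (R1 / s) i j, (gsq F i x + gsq F j x + w (x i - x j) * ‖F x‖ ^ 2) := by
    rw [← card_pairs n, Nat.cast_sum, Finset.sum_mul]
    refine Finset.sum_le_sum fun i _ => ?_
    rw [← nsmul_eq_mul, ← Finset.sum_const]
    exact Finset.sum_le_sum fun j hj => tP i j (Finset.mem_Ioi.1 hj).ne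
  have sumT : (n.choose 3 : ℝ) * X2 ≤ ∑ i : Fin n, ∑ j ∈ Finset.Ioi i, ∑ k ∈ Finset.Ioi j,
      ∫ x in tripReg τ (R2 / r) i j k, (gsq F i x + gsq F j x + gsq F k x
        + v (x i - x j, x i - x k) * ‖F x‖ ^ 2) := by
    rw [← card_trips n, Nat.cast_sum, Finset.sum_mul]
    refine Finset.sum_le_sum fun i _ => ?_
    rw [Nat.cast_sum, Finset.sum_mul]
    refine Finset.sum_le_sum fun j hj => ?_
    rw [← nsmul_eq_mul, ← Finset.sum_const]
    refine Finset.sum_le_sum fun k hk => ?_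
    have hij := Finset.mem_Ioi.1 hj
    have hjk := Finset.mem_Ioi.1 hk
    exact tT i j k hij.ne (hij.trans hjk).ne hjk.ne
  have hint := integrated hREGS τ0 hρ1 hρ2 hF hw0 hv0 mw mv (bdd_w hW s) (bdd_v hV r)
  rw [← hK] at hint
  set P : ℝ := ∫ x in box 0 1 n, (pairS w x + tripS v x) * ‖F x‖ ^ 2 with hP
  have P0 : 0 ≤ P := by
    refine integral_nonneg fun x => ?_
    have k1 : 0 ≤ pairS w x :=
      Finset.sum_nonneg fun i _ => Finset.sum_nonneg fun j _ => hw0 _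
    have k2 : 0 ≤ tripS v x :=
      Finset.sum_nonneg fun i _ => Finset.sum_nonneg fun j _ => Finset.sum_nonneg fun k _ => hv0 _
    positivity
  have hE : ∫ x in box 0 1 n, (kin F x + (pairS w x + tripS v x) * ‖F x‖ ^ 2) = K + P := by
    rw [hK, hP]
    refine integral_add (intOn_cont (cont_kin hF)) ?_
    obtain ⟨Mw, hMw⟩ := bdd_w hW s
    obtain ⟨Mv, hMv⟩ := bdd_v hV r
    have h1 : (fun x : Cfg n => (pairS w x + tripS v x) * ‖F x‖ ^ 2) = fun x =>
        (∑ i : Fin n, ∑ j ∈ Finset.Ioi i, w (x i - x j) * ‖F x‖ ^ 2)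
        + ∑ i : Fin n, ∑ j ∈ Finset.Ioi i, ∑ k ∈ Finset.Ioi j,
            v (x i - x j, x i - x k) * ‖F x‖ ^ 2 := by
      funext x
      unfold pairS tripS
      simp only [add_mul, Finset.sum_mul]
    rw [h1]
    refine Integrable.add ?_ ?_
    · refine integrable_finsetSum _ fun i _ => integrable_finsetSum _ fun j _ => ?_
      refine intOn_pot hF.continuous (w := fun x => w (x i - x j)) ?_ (fun x => hw0 _)
        ⟨Mw, fun x => hMw _⟩
      exact mw.comp ((continuous_apply i).sub (continuous_apply j)).measurable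
    · refine integrable_finsetSum _ fun i _ => integrable_finsetSum _ fun j _ =>
        integrable_finsetSum _ fun k _ => ?_
      refine intOn_pot hF.continuous (w := fun x => v (x i - x j, x i - x k)) ?_
        (fun x => hv0 _) ⟨Mv, fun x => hMv _⟩
      exact mv.comp (((continuous_apply i).sub (continuous_apply j)).prodMk
        ((continuous_apply i).sub (continuous_apply k))).measurable
  rw [hE, hp2]
  -- the algebra
  set B : ℝ := (n.choose 2 : ℝ) * b1 W / s + (n.choose 3 : ℝ) * b2 V / r ^ 4 with hB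
  have B0 : 0 ≤ B := by positivity
  have hBs : B ≤ θ / (4 * CP) :=
    small_B (Nat.cast_nonneg _) (Nat.cast_nonneg _) hb1 hb2 s01 hs hr θ0 CP0
      (by positivity : 0 ≤ 1 + 4 * R1 / τ + 4 * R2 / τ) rfl
  have main : (n.choose 2 : ℝ) * X1 + (n.choose 3 : ℝ) * X2 =
      (1 - δ) * (1 - θ) * B * ‖c‖ ^ 2 - δ * (NN * CH) * (K + D) := by
    rw [hX1, hX2, hB, hNN]
    ring
  have hKP : (1 - δ) * (1 - θ) * B * ‖c‖ ^ 2 - δ * (NN * CH) * (K + D) ≤ K + P := by
    rw [← main]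
    exact (add_le_add sumP sumT).trans hint
  exact alg hθ hη hη1 δ0 δθ CP0 CH0 NN0 (δm.trans (min_le_left _ _))
    (δm.trans (min_le_right _ _)) K0 D0 P0 B0 (by positivity) hBs hp1 hKP

end Pool.Agent.W499.TWB
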